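import Pool.Agent.Q266.CIF

set_option autoImplicit false

/-!
# MP_e3fe77_co: the polynomials `A_n` and `B_n` have non-negative integer coefficients
-/

namespace Pool.Agent.Results.MP_e3fe77_co.WeightedRegularSequences

open Pool.Agent.Q266.CIF

/-- `[m]! = (1 - q)(1 - q^2) ⋯ (1 - q^m)` as a rational function of `q` -/
noncomputable def br (m : ℕ) : RatFunc ℚ := ∏ i ∈ Finset.range m, (1 - RatFunc.X ^ (i + 1))

/-- `A_n(q)` -/
noncomputable def A (n : ℕ) : RatFunc ℚ :=
  ((1 - RatFunc.X) * br (15 * n) * br (2 * n)) /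
    ((1 - RatFunc.X ^ (10 * n + 1)) * br (10 * n) * br (4 * n) * br (3 * n))

/-- `B_n(q)` -/
noncomputable def B (n : ℕ) : RatFunc ℚ :=
  ((1 - RatFunc.X ^ 3) * (1 - RatFunc.X ^ 7) * br (15 * n) * br (2 * n)) /
    ((1 - RatFunc.X) * (1 - RatFunc.X ^ (10 * n + 3)) * br (10 * n) * br (4 * n) * br (3 * n))

/-- a rational function which is a polynomial with non-negative integer coefficients -/
def NonnegIntPoly (f : RatFunc ℚ) : Prop :=
  ∃ P : Polynomial ℤ, (∀ k : ℕ, 0 ≤ P.coeff k) ∧
    f = algebraMap (Polynomial ℚ) (RatFunc ℚ) (P.map (Int.castRingHom ℚ))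

/-- the embedding of integer polynomials -/
noncomputable def phi : Polynomial ℤ →+* RatFunc ℚ :=
  (algebraMap (Polynomial ℚ) (RatFunc ℚ)).comp (Polynomial.mapRingHom (Int.castRingHom ℚ))

theorem phi_X : phi Polynomial.X = RatFunc.X := by
  simp [phi]

theorem phi_inj : Function.Injective phi := by
  have h1 : Function.Injective (algebraMap (Polynomial ℚ) (RatFunc ℚ)) :=
    RatFunc.algebraMap_injective ℚ
  have h2 : Function.Injective (Polynomial.mapRingHom (Int.castRingHom ℚ)) :=
    Polynomial.map_injective _ (RingHom.injective_int _)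
  exact h1.comp h2

theorem fac_ne (k : ℕ) (hk : 0 < k) : (1 : Polynomial ℤ) - Polynomial.X ^ k ≠ 0 := by
  intro h
  have h1 := congrArg (Polynomial.eval 0) h
  rw [Polynomial.eval_sub, Polynomial.eval_one, Polynomial.eval_pow, Polynomial.eval_X,
    zero_pow hk.ne', sub_zero, Polynomial.eval_zero] at h1
  exact one_ne_zero h1

theorem qf_ne (m : ℕ) : qf m ≠ 0 := by
  rw [qf]
  exact Finset.prod_ne_zero_iff.2 (fun i _ => fac_ne (i + 1) (Nat.succ_pos i))

theorem phi_qf (m : ℕ) : phi (qf m) = br m := by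
  rw [qf, br, map_prod]
  refine Finset.prod_congr rfl (fun i _ => ?_)
  rw [map_sub, map_one, map_pow, phi_X]

theorem to_rat (N D P : Polynomial ℤ) (hD : D ≠ 0) (h : N = P * D) : phi N / phi D = phi P := by
  have h1 : phi D ≠ 0 := by
    intro h2
    exact hD (phi_inj (by rw [h2, map_zero]))
  rw [div_eq_iff h1, h, map_mul]

/-- For every positive integer n both A_n and B_n are polynomials with non-negative integer
coefficients. -/
theorem result : ∀ n : ℕ, 0 < n → NonnegIntPoly (A n) ∧ NonnegIntPoly (B n) := by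
  intro n hn
  constructor
  · obtain ⟨P, hP, hPe⟩ := posA n hn
    refine ⟨P, hP, ?_⟩
    have h := to_rat _ _ P (mul_ne_zero (fac_ne (10 * n + 1) (Nat.succ_pos _))
      (mul_ne_zero (mul_ne_zero (qf_ne (10 * n)) (qf_ne (4 * n))) (qf_ne (3 * n)))) hPe
    change A n = phi P
    rw [← h, A]
    simp only [map_mul, map_sub, map_one, map_pow, phi_X, phi_qf, mul_assoc]
  · obtain ⟨P, hP, hPe⟩ := posB_all n hn
    refine ⟨P, hP, ?_⟩
    have h1 : (1 : Polynomial ℤ) - Polynomial.X ≠ 0 := by
      simpa using fac_ne 1 Nat.one_pos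
    have h := to_rat _ _ P (mul_ne_zero (mul_ne_zero h1 (fac_ne (10 * n + 3) (Nat.succ_pos _)))
      (mul_ne_zero (mul_ne_zero (qf_ne (10 * n)) (qf_ne (4 * n))) (qf_ne (3 * n)))) hPe
    change B n = phi P
    rw [← h, B]
    simp only [map_mul, map_sub, map_one, map_pow, phi_X, phi_qf, mul_assoc]

end Pool.Agent.Results.MP_e3fe77_co.WeightedRegularSequences
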